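import Pool.Agent.Lib.MP_2710d6_gt.Defs

open MeasureTheory Set Metric
open scoped ContDiff

namespace Pool.Agent.Don

variable {b : Module.Basis (Fin 4) ℝ Pt} {f g : Pt → ℝ}

theorem per_span (h : ∀ i x, f (x + b i) = f x) {v : Pt}
    (hv : v ∈ Submodule.span ℤ (range b)) : ∀ x, f (x + v) = f x := by
  induction hv using Submodule.span_induction with
  | mem y hy => obtain ⟨i, rfl⟩ := hy; exact h i
  | zero => simp
  | add y z _ _ hy hz => intro x; rw [← add_assoc, hz, hy]
  | smul c y _ hy =>
    intro x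
    have := (Function.Periodic.zsmul (f := f) (c := y) hy c) x
    exact this

theorem per_fract (h : ∀ i x, f (x + b i) = f x) (x : Pt) : f (ZSpan.fract b x) = f x := by
  have := per_span h (ZSpan.floor b x).2 (ZSpan.fract b x)
  rw [← this, ZSpan.fract_apply, sub_add_cancel]

theorem cpt (b : Module.Basis (Fin 4) ℝ Pt) : IsCompact (closure (ZSpan.fundamentalDomain b)) :=
  (ZSpan.fundamentalDomain_isBounded b).isCompact_closure

theorem intOn (hf : Continuous f) : IntegrableOn f (ZSpan.fundamentalDomain b) :=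
  (hf.continuousOn.integrableOn_compact (cpt b)).mono_set subset_closure

namespace SP

theorem cont (h : SP b f) : Continuous f := h.1.continuous
theorem dif (h : SP b f) : Differentiable ℝ f := h.1.differentiable (by simp)
theorem int (h : SP b f) : IntegrableOn f (ZSpan.fundamentalDomain b) := intOn h.cont
theorem const (c : ℝ) : SP b fun _ => c := ⟨contDiff_const, fun _ _ => rfl⟩
theorem add (h : SP b f) (k : SP b g) : SP b fun x => f x + g x :=
  ⟨h.1.add k.1, fun i x => by simp only [h.2, k.2]⟩
theorem sub (h : SP b f) (k : SP b g) : SP b fun x => f x - g x :=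
  ⟨h.1.sub k.1, fun i x => by simp only [h.2, k.2]⟩
theorem mul (h : SP b f) (k : SP b g) : SP b fun x => f x * g x :=
  ⟨h.1.mul k.1, fun i x => by simp only [h.2, k.2]⟩
theorem neg (h : SP b f) : SP b fun x => -f x := ⟨h.1.neg, fun i x => by simp only [h.2]⟩
theorem div (h : SP b f) (k : SP b g) (h0 : ∀ x, g x ≠ 0) : SP b fun x => f x / g x :=
  ⟨h.1.div k.1 h0, fun i x => by simp only [h.2, k.2]⟩
theorem exp (h : SP b f) : SP b fun x => Real.exp (f x) :=
  ⟨h.1.exp, fun i x => by simp only [h.2]⟩
theorem cmul (c : ℝ) (h : SP b f) : SP b fun x => c * f x := (const c).mul h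

theorem pd (h : SP b f) (a : Fin 4) : SP b (pd a f) := by
  refine ⟨(h.1.fderiv_right (m := ∞) (by simp)).clm_apply contDiff_const, fun i x => ?_⟩
  have : (fun y => f (y + b i)) = f := funext (h.2 i)
  unfold Don.pd
  rw [← fderiv_comp_add_right, this]

theorem bdd (h : SP b f) : ∃ C, 0 < C ∧ ∀ x, |f x| ≤ C := by
  obtain ⟨C, hC⟩ := (cpt b).exists_bound_of_continuousOn h.cont.continuousOn
  refine ⟨|C| + 1, by positivity, fun x => ?_⟩
  have := hC _ (subset_closure (ZSpan.fract_mem_fundamentalDomain b x))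
  rw [per_fract h.2, Real.norm_eq_abs] at this
  linarith [le_abs_self C]

theorem eq_zero (h : SP b f) (h0 : ∀ x, 0 ≤ f x)
    (hi : ∫ x in ZSpan.fundamentalDomain b, f x = 0) : ∀ x, f x = 0 := by
  have : Countable (Submodule.span ℤ (range b)).toAddSubgroup :=
    inferInstanceAs (Countable (Submodule.span ℤ (range b)))
  have h1 := (setIntegral_eq_zero_iff_of_nonneg_ae (Filter.Eventually.of_forall h0) h.int).1 hi
  have h2 : volume ({x | f x ≠ 0} ∩ ZSpan.fundamentalDomain b) = 0 := by
    rw [← Measure.restrict_apply' (ZSpan.fundamentalDomain_measurableSet b)]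
    exact h1
  have h3 : volume {x | f x ≠ 0} = 0 := by
    refine (ZSpan.isAddFundamentalDomain' b volume).measure_zero_of_invariant _ (fun v => ?_) h2
    ext x
    rw [Set.mem_vadd_set_iff_neg_vadd_mem]
    have := per_span h.2 (neg_mem v.2) x
    change f (-v.1 + x) ≠ 0 ↔ f x ≠ 0
    rw [add_comm, this]
  have h4 : f = fun _ => 0 :=
    (Continuous.ae_eq_iff_eq volume h.cont continuous_const).1 h3
  exact fun x => congrFun h4 x

end SP

theorem hasDerivAt_int (b : Module.Basis (Fin 4) ℝ Pt) {F F' : ℝ → Pt → ℝ} {ε : ℝ} (hε : 0 < ε)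
    (hF : ∀ t, |t| ≤ ε → Continuous (F t))
    (hF' : ContinuousOn (fun p : ℝ × Pt => F' p.1 p.2) (closedBall 0 ε ×ˢ univ))
    (hd : ∀ x t, |t| ≤ ε → HasDerivAt (F · x) (F' t x) t) :
    HasDerivAt (fun t => ∫ x in ZSpan.fundamentalDomain b, F t x)
      (∫ x in ZSpan.fundamentalDomain b, F' 0 x) 0 := by
  obtain ⟨C, hC⟩ := ((isCompact_closedBall (0 : ℝ) ε).prod (cpt b)).exists_bound_of_continuousOn
    (hF'.mono (prod_mono_right (subset_univ _)))
  have hb : ∀ t : ℝ, t ∈ closedBall (0 : ℝ) ε → |t| ≤ ε := fun t ht => by simpa using ht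
  have hc : Continuous (F' 0) :=
    hF'.comp_continuous (f := fun x : Pt => ((0 : ℝ), x)) (by fun_prop)
      fun x => ⟨mem_closedBall_self hε.le, mem_univ _⟩
  refine (hasDerivAt_integral_of_dominated_loc_of_deriv_le (bound := fun _ => C)
    (closedBall_mem_nhds (0 : ℝ) hε) ?_ (intOn (hF 0 (by simp [hε.le])))
    hc.aestronglyMeasurable ?_ (intOn continuous_const) ?_).2
  · filter_upwards [closedBall_mem_nhds (0 : ℝ) hε] with t ht
    exact (hF t (hb t ht)).aestronglyMeasurable
  · filter_upwards [ae_restrict_mem (ZSpan.fundamentalDomain_measurableSet b)] with x hx t ht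
    exact hC (t, x) ⟨ht, subset_closure hx⟩
  · exact Filter.Eventually.of_forall fun x t ht => hd x t (hb t ht)

theorem int_shift (h : SP b f) (v : Pt) :
    ∫ x in ZSpan.fundamentalDomain b, f (v + x) = ∫ x in ZSpan.fundamentalDomain b, f x := by
  have : Countable (Submodule.span ℤ (range b)).toAddSubgroup :=
    inferInstanceAs (Countable (Submodule.span ℤ (range b)))
  have h2 := (ZSpan.isAddFundamentalDomain' b volume).setIntegral_eq
    ((ZSpan.isAddFundamentalDomain' b volume).vadd_of_comm v) (f := f) fun g x => by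
      change f (g.1 + x) = f x
      rw [add_comm, per_span h.2 g.2]
  exact (h2.trans ((measurePreserving_add_left volume v).setIntegral_image_emb
    (measurableEmbedding_addLeft _) _ _)).symm

theorem int_pd (h : SP b f) (a : Fin 4) :
    ∫ x in ZSpan.fundamentalDomain b, pd a f x = 0 := by
  have h1 := hasDerivAt_int b (F := fun t x => f (t • Pi.single a 1 + x))
    (F' := fun t x => pd a f (t • Pi.single a 1 + x)) one_pos
    (fun t _ => h.cont.comp (by fun_prop))
    (((h.pd a).cont.comp (by fun_prop)).continuousOn) fun x t _ => by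
      have h2 : HasDerivAt (fun t : ℝ => t • (Pi.single a 1 : Pt) + x) (Pi.single a 1) t := by
        simpa using ((hasDerivAt_id t).smul_const (Pi.single a 1 : Pt)).add_const x
      exact (h.dif _).hasFDerivAt.comp_hasDerivAt t h2
  simp only [int_shift h, zero_smul, zero_add] at h1
  exact h1.unique (hasDerivAt_const _ _)

theorem pd_comm (h : SP b f) (a c : Fin 4) (x : Pt) : pd a (pd c f) x = pd c (pd a f) x := by
  have h1 := (h.1.contDiffAt (x := x)).isSymmSndFDerivAt (by
    simp only [minSmoothness_of_isRCLikeNormedField]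
    exact WithTop.coe_le_coe.2 le_top)
  have h2 : DifferentiableAt ℝ (fderiv ℝ f) x :=
    ((h.1.fderiv_right (m := ∞) (by simp)).differentiable (by simp)) x
  have h3 : ∀ u v : Pt, fderiv ℝ (fun y => fderiv ℝ f y v) x u = fderiv ℝ (fderiv ℝ f) x u v := by
    intro u v
    rw [fderiv_clm_apply h2 (differentiableAt_const _)]
    simp
  unfold pd
  rw [h3, h3, h1]

theorem pd_const (c : ℝ) (a : Fin 4) (x : Pt) : pd a (fun _ => c) x = 0 := by simp [pd]

theorem pd_add (h : SP b f) (k : SP b g) (a : Fin 4) (x : Pt) :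
    pd a (fun x => f x + g x) x = pd a f x + pd a g x := by
  unfold pd; rw [fderiv_fun_add (h.dif x) (k.dif x)]; rfl

theorem pd_sub (h : SP b f) (k : SP b g) (a : Fin 4) (x : Pt) :
    pd a (fun x => f x - g x) x = pd a f x - pd a g x := by
  unfold pd; rw [fderiv_fun_sub (h.dif x) (k.dif x)]; rfl

theorem pd_mul (h : SP b f) (k : SP b g) (a : Fin 4) (x : Pt) :
    pd a (fun x => f x * g x) x = pd a f x * g x + f x * pd a g x := by
  unfold pd; rw [fderiv_fun_mul (h.dif x) (k.dif x)]
  simp only [add_apply, smul_apply, smul_eq_mul]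
  ring

theorem pd_cmul (c : ℝ) (h : SP b f) (a : Fin 4) (x : Pt) :
    pd a (fun x => c * f x) x = c * pd a f x := by
  rw [pd_mul (SP.const c) h, pd_const]; ring

theorem pd_exp (h : SP b f) (a : Fin 4) (x : Pt) :
    pd a (fun x => Real.exp (f x)) x = Real.exp (f x) * pd a f x := by
  unfold pd; rw [fderiv_exp (h.dif x)]; rfl

/-- Integration by parts. -/
theorem int_parts (h : SP b f) (k : SP b g) (a : Fin 4) :
    ∫ x in ZSpan.fundamentalDomain b, (pd a f x * g x + f x * pd a g x) = 0 := by
  simpa only [pd_mul h k] using int_pd (h.mul k) a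

/-- The integral of a Jacobian vanishes. -/
theorem int_jac (h : SP b f) (k : SP b g) (a c : Fin 4) :
    ∫ x in ZSpan.fundamentalDomain b, (pd a f x * pd c g x - pd c f x * pd a g x) = 0 := by
  have h1 := int_parts h (k.pd c) a
  have h2 := int_parts h (k.pd a) c
  have h3 := integral_sub (((h.pd a).mul (k.pd c)).add (h.mul ((k.pd c).pd a))).int
    (((h.pd c).mul (k.pd a)).add (h.mul ((k.pd a).pd c))).int
  rw [h1, h2, sub_zero] at h3
  rw [← h3]
  congr 1
  ext x
  rw [pd_comm k a c]
  ring

theorem const_of_pd (h : SP b f) (h0 : ∀ a x, pd a f x = 0) (x y : Pt) : f x = f y := by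
  refine is_const_of_fderiv_eq_zero h.dif (fun z => ?_) x y
  ext v
  have : v = ∑ a, v a • (Pi.single a 1 : Pt) := by
    ext c; simp [Finset.sum_apply, Pi.single_apply]
  rw [this, map_sum]
  simp only [map_smul]
  exact Finset.sum_eq_zero fun a _ => by
    have := h0 a z
    unfold pd at this
    rw [this, smul_zero]

end Pool.Agent.Don
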