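import Pool.Agent.Lib.MP_2710d6_gt.Ana

open MeasureTheory Set Metric
open scoped ContDiff

namespace Pool.Agent.Don

variable {b : Module.Basis (Fin 4) ℝ Pt} {f g : Pt → ℝ}

def om0 (s : ℝ) (p q : Fin 4 → ℝ) : ℝ := (p 0 * q 1 - p 1 * q 0) + s * (p 2 * q 3 - p 3 * q 2)
def om1 (s : ℝ) (p q : Fin 4 → ℝ) : ℝ := (p 0 * q 2 - p 2 * q 0) + -s * (p 1 * q 3 - p 3 * q 1)
def om2 (s : ℝ) (p q : Fin 4 → ℝ) : ℝ := (p 0 * q 3 - p 3 * q 0) + s * (p 1 * q 2 - p 2 * q 1)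

noncomputable def gr (f : Pt → ℝ) (x : Pt) : Fin 4 → ℝ := fun a => pd a f x

/-- Smooth periodic functions with integral zero. -/
def Nul (b : Module.Basis (Fin 4) ℝ Pt) (f : Pt → ℝ) : Prop :=
  SP b f ∧ ∫ x in ZSpan.fundamentalDomain b, f x = 0

theorem Nul.add (h : Nul b f) (k : Nul b g) : Nul b fun x => f x + g x :=
  ⟨h.1.add k.1, by rw [integral_add h.1.int k.1.int, h.2, k.2, add_zero]⟩
theorem Nul.sub (h : Nul b f) (k : Nul b g) : Nul b fun x => f x - g x :=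
  ⟨h.1.sub k.1, by rw [integral_sub h.1.int k.1.int, h.2, k.2, sub_zero]⟩
theorem Nul.cmul (c : ℝ) (h : Nul b f) : Nul b fun x => c * f x :=
  ⟨h.1.cmul c, by rw [integral_const_mul, h.2, mul_zero]⟩

theorem nul_jac (h : SP b f) (k : SP b g) (a c : Fin 4) :
    Nul b fun x => pd a f x * pd c g x - pd c f x * pd a g x :=
  ⟨((h.pd a).mul (k.pd c)).sub ((h.pd c).mul (k.pd a)), int_jac h k a c⟩

theorem nul_parts (h : SP b f) (k : SP b g) (a : Fin 4) :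
    Nul b fun x => pd a f x * g x + f x * pd a g x :=
  ⟨((h.pd a).mul k).add (h.mul (k.pd a)), int_parts h k a⟩

theorem nul0 (s : ℝ) (h : SP b f) (k : SP b g) : Nul b fun x => om0 s (gr f x) (gr g x) :=
  (nul_jac h k 0 1).add ((nul_jac h k 2 3).cmul s)
theorem nul1 (s : ℝ) (h : SP b f) (k : SP b g) : Nul b fun x => om1 s (gr f x) (gr g x) :=
  (nul_jac h k 0 2).add ((nul_jac h k 1 3).cmul (-s))
theorem nul2 (s : ℝ) (h : SP b f) (k : SP b g) : Nul b fun x => om2 s (gr f x) (gr g x) :=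
  (nul_jac h k 0 3).add ((nul_jac h k 1 2).cmul s)

/-- The three-form `∑ dk_i ∧ ω_i` as a vector. -/
def fue (s : ℝ) (p q r : Fin 4 → ℝ) : Fin 4 → ℝ :=
  ![-(p 1 + q 2 + r 3), p 0 + s * q 3 - s * r 2, -s * p 3 + q 0 + s * r 1, s * p 2 - s * q 1 + r 0]

/-- The three-form `G ∧ A` as a vector. -/
def wed (G : Fin 4 → ℝ) (A : Fin 4 → Fin 4 → ℝ) : Fin 4 → ℝ :=
  ![-(G 1 * A 2 3 - G 2 * A 1 3 + G 3 * A 1 2), G 0 * A 2 3 - G 2 * A 0 3 + G 3 * A 0 2,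
    -(G 0 * A 1 3) + G 1 * A 0 3 - G 3 * A 0 1, G 0 * A 1 2 - G 1 * A 0 2 + G 2 * A 0 1]

def nsq (p : Fin 4 → ℝ) : ℝ := p 0 ^ 2 + p 1 ^ 2 + p 2 ^ 2 + p 3 ^ 2

theorem alg2 {s w k0 k1 k2 : ℝ} (hs : s = 1 ∨ s = -1) {A : Fin 4 → Fin 4 → ℝ} (G V : Fin 4 → ℝ)
    (h0 : 2 * w * k0 = A 2 3 + s * A 0 1) (h1 : 2 * w * k1 = -A 1 3 + s * A 0 2)
    (h2 : 2 * w * k2 = A 1 2 + s * A 0 3) (hw : w = s * pf A) (hV : ∀ c, V c = 2 * wed G A c) :
    4 * w * (k0 * om0 s G V + k1 * om1 s G V + k2 * om2 s G V - nsq G) = nsq V := by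
  have e : 4 * w * (k0 * om0 s G V + k1 * om1 s G V + k2 * om2 s G V - nsq G) =
      2 * ((A 2 3 + s * A 0 1) * om0 s G V + (-A 1 3 + s * A 0 2) * om1 s G V +
        (A 1 2 + s * A 0 3) * om2 s G V) - 4 * (s * pf A) * nsq G := by
    rw [← h0, ← h1, ← h2, ← hw]; ring
  rw [e]
  simp only [om0, om1, om2, nsq, pf, hV, wed, Matrix.cons_val_zero, Matrix.cons_val_one,
    Matrix.cons_val]
  rcases hs with rfl | rfl <;> ring

theorem alg1 {s : ℝ} (hs : s = 1 ∨ s = -1) (k0 k1 k2 φ c : ℝ) (p q r G P Q R : Fin 4 → ℝ)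
    (hG : ∀ a, G a = k0 * p a + k1 * q a + k2 * r a)
    (hP : ∀ a, P a = φ * (2 * c * G a * k0 + p a)) (hQ : ∀ a, Q a = φ * (2 * c * G a * k1 + q a))
    (hR : ∀ a, R a = φ * (2 * c * G a * k2 + r a)) :
    -s * (om2 s P q - om2 s Q p + (om0 s Q r - om0 s R q) + (om1 s R p - om1 s P r)) =
      φ * (nsq p + nsq q + nsq r - nsq (fue s p q r) - 2 * c * (k0 * om0 s G (fue s p q r) +
        k1 * om1 s G (fue s p q r) + k2 * om2 s G (fue s p q r) - nsq G)) := by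
  simp only [om0, om1, om2, nsq, fue, hP, hQ, hR, hG, Matrix.cons_val_zero, Matrix.cons_val_one,
    Matrix.cons_val]
  rcases hs with rfl | rfl <;> ring

theorem nsq_nonneg (p : Fin 4 → ℝ) : 0 ≤ nsq p := by unfold nsq; positivity

theorem nsq_zero {p : Fin 4 → ℝ} (h : nsq p ≤ 0) (a : Fin 4) : p a = 0 := by
  unfold nsq at h
  fin_cases a
  · change p 0 = 0
    nlinarith [sq_nonneg (p 0), sq_nonneg (p 1), sq_nonneg (p 2), sq_nonneg (p 3)]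
  · change p 1 = 0
    nlinarith [sq_nonneg (p 0), sq_nonneg (p 1), sq_nonneg (p 2), sq_nonneg (p 3)]
  · change p 2 = 0
    nlinarith [sq_nonneg (p 0), sq_nonneg (p 1), sq_nonneg (p 2), sq_nonneg (p 3)]
  · change p 3 = 0
    nlinarith [sq_nonneg (p 0), sq_nonneg (p 1), sq_nonneg (p 2), sq_nonneg (p 3)]

/-- The key rigidity statement. -/
theorem core {s : ℝ} (hs : s = 1 ∨ s = -1) {k0 k1 k2 w : Pt → ℝ} (S0 : SP b k0) (S1 : SP b k1)
    (S2 : SP b k2) {A : Pt → Fin 4 → Fin 4 → ℝ} {c : ℝ} (hc : ∀ x, 1 + c / (2 * w x) ≤ 0)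
    (h0 : ∀ x, 2 * w x * k0 x = A x 2 3 + s * A x 0 1)
    (h1 : ∀ x, 2 * w x * k1 x = -A x 1 3 + s * A x 0 2)
    (h2 : ∀ x, 2 * w x * k2 x = A x 1 2 + s * A x 0 3) (hw : ∀ x, w x = s * pf (A x))
    (hV : ∀ x a, fue s (gr k0 x) (gr k1 x) (gr k2 x) a =
      2 * wed (fun a => k0 x * gr k0 x a + k1 x * gr k1 x a + k2 x * gr k2 x a) (A x) a)
    (x y : Pt) : k0 x = k0 y ∧ k1 x = k1 y ∧ k2 x = k2 y := by
  have SN : SP b fun x => c * (k0 x * k0 x + k1 x * k1 x + k2 x * k2 x) :=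
    (((S0.mul S0).add (S1.mul S1)).add (S2.mul S2)).cmul c
  set φ : Pt → ℝ := fun x => Real.exp (c * (k0 x * k0 x + k1 x * k1 x + k2 x * k2 x)) with hφ
  have Sφ : SP b φ := SN.exp
  have hd : ∀ {k : Pt → ℝ}, SP b k → ∀ x a, gr (fun x => φ x * k x) x a = φ x * (2 * c *
      (k0 x * gr k0 x a + k1 x * gr k1 x a + k2 x * gr k2 x a) * k x + gr k x a) := by
    intro k Sk x a
    simp only [gr]
    rw [pd_mul Sφ Sk, hφ, pd_exp SN, pd_cmul c (((S0.mul S0).add (S1.mul S1)).add (S2.mul S2)),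
      pd_add ((S0.mul S0).add (S1.mul S1)) (S2.mul S2), pd_add (S0.mul S0) (S1.mul S1),
      pd_mul S0 S0, pd_mul S1 S1, pd_mul S2 S2]
    ring
  have N := ((((nul2 s (Sφ.mul S0) S1).sub (nul2 s (Sφ.mul S1) S0)).add
    ((nul0 s (Sφ.mul S1) S2).sub (nul0 s (Sφ.mul S2) S1))).add
    ((nul1 s (Sφ.mul S2) S0).sub (nul1 s (Sφ.mul S0) S2))).cmul (-s)
  have key : ∀ x, φ x * (nsq (gr k0 x) + nsq (gr k1 x) + nsq (gr k2 x)) ≤
      -s * (om2 s (gr (fun x => φ x * k0 x) x) (gr k1 x) -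
        om2 s (gr (fun x => φ x * k1 x) x) (gr k0 x) +
        (om0 s (gr (fun x => φ x * k1 x) x) (gr k2 x) -
          om0 s (gr (fun x => φ x * k2 x) x) (gr k1 x)) +
        (om1 s (gr (fun x => φ x * k2 x) x) (gr k0 x) -
          om1 s (gr (fun x => φ x * k0 x) x) (gr k2 x))) := by
    intro x
    rw [alg1 hs (k0 x) (k1 x) (k2 x) (φ x) c _ _ _ _ _ _ _ (fun _ => rfl) (hd S0 x) (hd S1 x)
      (hd S2 x)]
    have e := alg2 hs _ _ (h0 x) (h1 x) (h2 x) (hw x) (hV x)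
    have hw0 : w x ≠ 0 := fun h => by have := hc x; rw [h] at this; norm_num at this
    refine mul_le_mul_of_nonneg_left ?_ (Real.exp_pos _).le
    have hn := nsq_nonneg (fue s (gr k0 x) (gr k1 x) (gr k2 x))
    have e2 := mul_nonneg hn (neg_nonneg.2 (hc x))
    generalize nsq (fue s (gr k0 x) (gr k1 x) (gr k2 x)) = n at *
    generalize k0 x * om0 s _ _ + k1 x * om1 s _ _ + k2 x * om2 s _ _ - nsq _ = T at *
    have e3 : n * -(1 + c / (2 * w x)) = -n - 2 * c * T := by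
      rw [← e]; field_simp; ring
    linarith
  have pos : ∀ x, 0 < φ x := fun x => Real.exp_pos _
  have nn : ∀ x, 0 ≤ nsq (gr k0 x) + nsq (gr k1 x) + nsq (gr k2 x) := fun x =>
    add_nonneg (add_nonneg (nsq_nonneg _) (nsq_nonneg _)) (nsq_nonneg _)
  have Z := N.1.eq_zero (fun x => (mul_nonneg (pos x).le (nn x)).trans (key x)) N.2
  have z : ∀ x, nsq (gr k0 x) + nsq (gr k1 x) + nsq (gr k2 x) ≤ 0 := fun x =>
    nonpos_of_mul_nonpos_right ((key x).trans (Z x).le) (pos x)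
  refine ⟨const_of_pd S0 (fun a x => nsq_zero (p := gr k0 x) ?_ a) x y,
    const_of_pd S1 (fun a x => nsq_zero (p := gr k1 x) ?_ a) x y,
    const_of_pd S2 (fun a x => nsq_zero (p := gr k2 x) ?_ a) x y⟩ <;>
  linarith [z x, nsq_nonneg (gr k0 x), nsq_nonneg (gr k1 x), nsq_nonneg (gr k2 x)]

end Pool.Agent.Don
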