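import Mathlib

open MeasureTheory
open scoped ContDiff

namespace Pool.Agent.Don

/-- Euclidean four-space with coordinates `x 0, ..., x 3` and the flat metric `∑ dx_a ^ 2`. -/
abbrev Pt := Fin 4 → ℝ

/-- The derivative in the coordinate direction `a`. -/
noncomputable def pd (a : Fin 4) (f : Pt → ℝ) (x : Pt) : ℝ := fderiv ℝ f x (Pi.single a 1)

/-- `f` is a smooth function on the torus `ℝ^4 / L`, where `L` is the lattice spanned by `b`. -/
def SP (b : Module.Basis (Fin 4) ℝ Pt) (f : Pt → ℝ) : Prop :=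
  ContDiff ℝ ∞ f ∧ ∀ i x, f (x + b i) = f x

/-- The coefficients of the exterior derivative of the one-form `∑ l c dx_c`. -/
noncomputable def dOne (l : Fin 4 → Pt → ℝ) (x : Pt) : Fin 4 → Fin 4 → ℝ :=
  fun a c => pd a (l c) x - pd c (l a) x

/-- The Pfaffian: `A ∧ A = 2 * pf A * dx_0 dx_1 dx_2 dx_3` for `A = ∑_{a < c} A a c dx_a dx_c`. -/
def pf (A : Fin 4 → Fin 4 → ℝ) : ℝ := A 0 1 * A 2 3 - A 0 2 * A 1 3 + A 0 3 * A 1 2

/-- The squared norm of the self-dual part of the two-form `A`. -/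
noncomputable def sdSq (A : Fin 4 → Fin 4 → ℝ) : ℝ :=
  ((A 0 1 + A 2 3) ^ 2 + (A 0 2 - A 1 3) ^ 2 + (A 0 3 + A 1 2) ^ 2) / 2

/-- The squared norm of the anti-self-dual part of the two-form `A`. -/
noncomputable def asdSq (A : Fin 4 → Fin 4 → ℝ) : ℝ :=
  ((A 0 1 - A 2 3) ^ 2 + (A 0 2 + A 1 3) ^ 2 + (A 0 3 - A 1 2) ^ 2) / 2

/-- Donaldson's energy of a two-form on the flat torus `ℝ^4 / L`. -/
noncomputable def energy (b : Module.Basis (Fin 4) ℝ Pt) (ρ : Pt → Fin 4 → Fin 4 → ℝ) : ℝ :=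
  ∫ x in ZSpan.fundamentalDomain b, 2 * sdSq (ρ x) / (sdSq (ρ x) - asdSq (ρ x))

/-- `ρ` lies in `S_a`, where `a` is the de Rham class of the constant two-form `A`:
`ρ = A + d l` for a smooth one-form `l` on the torus, and `ρ ∧ ρ > 0`. -/
def InClass (b : Module.Basis (Fin 4) ℝ Pt) (A : Fin 4 → Fin 4 → ℝ)
    (ρ : Pt → Fin 4 → Fin 4 → ℝ) : Prop :=
  (∃ l : Fin 4 → Pt → ℝ, (∀ c, SP b (l c)) ∧ ∀ x, ρ x = A + dOne l x) ∧ ∀ x, 0 < pf (ρ x)

/-- `ρ` is a critical point of the energy in its class: the derivative of the energy vanishes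
along every exact direction. -/
def IsCritical (b : Module.Basis (Fin 4) ℝ Pt) (ρ : Pt → Fin 4 → Fin 4 → ℝ) : Prop :=
  ∀ l : Fin 4 → Pt → ℝ, (∀ c, SP b (l c)) →
    HasDerivAt (fun t : ℝ => energy b fun x => ρ x + t • dOne l x) 0 0

end Pool.Agent.Don
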