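import Pool.Agent.Lib.MP_2710d6_gt.Var

open MeasureTheory Set Metric
open scoped ContDiff

namespace Pool.Agent.Don

variable {b : Module.Basis (Fin 4) ℝ Pt} {ρ : Pt → Fin 4 → Fin 4 → ℝ} {A : Fin 4 → Fin 4 → ℝ}

theorem closed3 {l : Fin 4 → Pt → ℝ} (hl : ∀ c, SP b (l c)) (h : ∀ x, ρ x = A + dOne l x)
    (a c e : Fin 4) (x : Pt) :
    pd a (fun x => ρ x c e) x - pd c (fun x => ρ x a e) x + pd e (fun x => ρ x a c) x = 0 := by
  have k : ∀ a c e, pd a (fun x => ρ x c e) x = pd a (pd c (l e)) x - pd a (pd e (l c)) x := by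
    intro a c e
    simp only [h, Pi.add_apply]
    rw [pd_add (SP.const _) (sp_dOne hl c e), pd_const, zero_add]
    exact pd_sub ((hl e).pd c) ((hl c).pd e) a x
  rw [k, k, k, pd_comm (hl e) a c, pd_comm (hl c) a e, pd_comm (hl a) c e]
  ring

theorem pd_S {k n r : Pt → ℝ} (hk : SP b k) (hn : SP b n) (hr : SP b r) (α β : ℝ) (a : Fin 4)
    (x : Pt) : pd a (fun x => α * k x + β * (n x * r x)) x =
      α * pd a k x + β * (pd a n x * r x + n x * pd a r x) := by
  rw [pd_add (hk.cmul α) ((hn.mul hr).cmul β), pd_cmul α hk, pd_cmul β (hn.mul hr), pd_mul hn hr]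

theorem crit_const {s : ℝ} (hs : s = 1 ∨ s = -1) (hin : InClass b A ρ) (hc : IsCritical b ρ)
    (x y : Pt) :
    (ρ x 0 1 + s * ρ x 2 3) / (2 * pf (ρ x)) = (ρ y 0 1 + s * ρ y 2 3) / (2 * pf (ρ y)) ∧
    (ρ x 0 2 - s * ρ x 1 3) / (2 * pf (ρ x)) = (ρ y 0 2 - s * ρ y 1 3) / (2 * pf (ρ y)) ∧
    (ρ x 0 3 + s * ρ x 1 2) / (2 * pf (ρ x)) = (ρ y 0 3 + s * ρ y 1 2) / (2 * pf (ρ y)) := by
  obtain ⟨⟨l, hl, hρ⟩, hp⟩ := hin
  have h : ∀ a c, SP b fun x => ρ x a c := fun a c => by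
    simp only [hρ, Pi.add_apply]
    exact (SP.const _).add (sp_dOne hl a c)
  have hu : SP b fun x => 2 * pf (ρ x) := (sp_pf h).cmul 2
  have hu0 : ∀ x, 2 * pf (ρ x) ≠ 0 := fun x => (mul_pos two_pos (hp x)).ne'
  have S0 := ((h 0 1).add ((h 2 3).cmul s)).div hu hu0
  have S1 := ((h 0 2).sub ((h 1 3).cmul s)).div hu hu0
  have S2 := ((h 0 3).add ((h 1 2).cmul s)).div hu hu0
  set k0 := fun x => (ρ x 0 1 + s * ρ x 2 3) / (2 * pf (ρ x)) with e0
  set k1 := fun x => (ρ x 0 2 - s * ρ x 1 3) / (2 * pf (ρ x)) with e1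
  set k2 := fun x => (ρ x 0 3 + s * ρ x 1 2) / (2 * pf (ρ x)) with e2
  have Sn := ((S0.mul S0).add (S1.mul S1)).add (S2.mul S2)
  set n := fun x => k0 x * k0 x + k1 x * k1 x + k2 x * k2 x with en
  have dn : ∀ a x, pd a n x = 2 * (k0 x * pd a k0 x + k1 x * pd a k1 x + k2 x * pd a k2 x) := by
    intro a x
    rw [en, pd_add ((S0.mul S0).add (S1.mul S1)) (S2.mul S2), pd_add (S0.mul S0) (S1.mul S1),
      pd_mul S0 S0, pd_mul S1 S1, pd_mul S2 S2]
    ring
  have sp : ∀ {k : Pt → ℝ}, SP b k → ∀ (α β : ℝ) a c,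
      SP b fun x => α * k x + β * (n x * ρ x a c) := fun hk α β a c =>
    (hk.cmul α).add ((Sn.mul (h a c)).cmul β)
  have W := weak_div (sp S0 2 (-2) 2 3) (sp S1 2 2 1 3) (sp S2 2 (-2) 1 2)
    (sp S2 (2 * s) (-2) 0 3) (sp S1 (-2 * s) 2 0 2) (sp S0 (2 * s) (-2) 0 1) fun m hm => by
      rw [← (hasDerivAt_energy h (sp_dOne hm) hp).unique (hc m hm)]
      congr 1
      ext x
      have u0 := (hp x).ne'
      have u1 : pf (ρ x) = ρ x 0 1 * ρ x 2 3 - ρ x 0 2 * ρ x 1 3 + ρ x 0 3 * ρ x 1 2 := rfl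
      simp only [en, e0, e1, e2, dsd, dpf, sdSq]
      generalize pf (ρ x) = u at *
      rcases hs with rfl | rfl
      · field_simp
        ring
      · field_simp
        rw [u1]
        ring
  obtain ⟨C, C0, hC⟩ := (sp_pf h).bdd
  have hs2 : s * s = 1 := by rcases hs with rfl | rfl <;> norm_num
  refine core hs S0 S1 S2 (w := fun x => s * pf (ρ x)) (A := ρ) (c := -2 * s * C)
    (fun x => ?_) (fun x => ?_) (fun x => ?_) (fun x => ?_) (fun _ => rfl) (fun x a => ?_) x y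
  · have s0 : s ≠ 0 := fun h => by simp [h] at hs2
    have u0 := hp x
    have : -2 * s * C / (2 * (s * pf (ρ x))) = -(C / pf (ρ x)) := by field_simp
    rw [this]
    have := (one_le_div u0).2 ((le_abs_self _).trans (hC x))
    linarith
  · have u0 := (hp x).ne'
    simp only [e0]
    field_simp
    linear_combination ρ x 2 3 * hs2
  · have u0 := (hp x).ne'
    simp only [e1]
    field_simp
    linear_combination -ρ x 1 3 * hs2
  · have u0 := (hp x).ne'
    simp only [e2]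
    field_simp
    linear_combination ρ x 1 2 * hs2
  · obtain ⟨w0, w1, w2, w3⟩ := W x
    simp only [pd_S S0 Sn (h _ _), pd_S S1 Sn (h _ _), pd_S S2 Sn (h _ _), dn] at w0 w1 w2 w3
    fin_cases a
    · change fue _ _ _ _ 0 = 2 * wed _ _ 0
      simp only [fue, wed, gr, Matrix.cons_val_zero]
      linear_combination -(1 / 2) * w0 - n x * closed3 hl hρ 1 2 3 x
    · change fue _ _ _ _ 1 = 2 * wed _ _ 1
      simp only [fue, wed, gr, Matrix.cons_val_zero, Matrix.cons_val_one]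
      linear_combination (1 / 2) * w1 + n x * closed3 hl hρ 0 2 3 x
    · change fue _ _ _ _ 2 = 2 * wed _ _ 2
      simp only [fue, wed, gr, Matrix.cons_val]
      linear_combination (1 / 2) * w2 - n x * closed3 hl hρ 0 1 3 x
    · change fue _ _ _ _ 3 = 2 * wed _ _ 3
      simp only [fue, wed, gr, Matrix.cons_val]
      linear_combination (1 / 2) * w3 + n x * closed3 hl hρ 0 1 2 x

theorem zero_of_const {f : Pt → ℝ} (h : Nul b f) (hc : ∀ x y, f x = f y) (x : Pt) : f x = 0 := by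
  have N := h.cmul (f x)
  exact mul_self_eq_zero.1
    (N.1.eq_zero (fun y => by rw [hc y x]; exact mul_self_nonneg _) N.2 x)

theorem eq_of_crit (hin : InClass b A ρ) (hc : IsCritical b ρ) (x : Pt) : ρ x = A := by
  have key : ∀ x y, ρ x 0 1 = ρ y 0 1 ∧ ρ x 0 2 = ρ y 0 2 ∧ ρ x 0 3 = ρ y 0 3 ∧
      ρ x 1 2 = ρ y 1 2 ∧ ρ x 1 3 = ρ y 1 3 ∧ ρ x 2 3 = ρ y 2 3 := by
    intro x y
    obtain ⟨a0, a1, a2⟩ := crit_const (Or.inl rfl) hin hc x y
    obtain ⟨c0, c1, c2⟩ := crit_const (Or.inr rfl) hin hc x y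
    have hx := (hin.2 x).ne'
    have hy := (hin.2 y).ne'
    have ux : pf (ρ x) = ρ x 0 1 * ρ x 2 3 - ρ x 0 2 * ρ x 1 3 + ρ x 0 3 * ρ x 1 2 := rfl
    have uy : pf (ρ y) = ρ y 0 1 * ρ y 2 3 - ρ y 0 2 * ρ y 1 3 + ρ y 0 3 * ρ y 1 2 := rfl
    generalize pf (ρ x) = u at *
    generalize pf (ρ y) = v at *
    field_simp at a0 a1 a2 c0 c1 c2
    have r01 : ρ x 0 1 * v = ρ y 0 1 * u := by linear_combination (a0 + c0) / 2
    have r23 : ρ x 2 3 * v = ρ y 2 3 * u := by linear_combination (a0 - c0) / 2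
    have r02 : ρ x 0 2 * v = ρ y 0 2 * u := by linear_combination (a1 + c1) / 2
    have r13 : ρ x 1 3 * v = ρ y 1 3 * u := by linear_combination (c1 - a1) / 2
    have r03 : ρ x 0 3 * v = ρ y 0 3 * u := by linear_combination (a2 + c2) / 2
    have r12 : ρ x 1 2 * v = ρ y 1 2 * u := by linear_combination (a2 - c2) / 2
    have uv : u * v * (v - u) = 0 := by
      linear_combination v ^ 2 * ux - u ^ 2 * uy + (ρ x 2 3 * v * r01 + ρ y 0 1 * u * r23) -
        (ρ x 1 3 * v * r02 + ρ y 0 2 * u * r13) + (ρ x 1 2 * v * r03 + ρ y 0 3 * u * r12)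
    have e : v = u := sub_eq_zero.1 ((mul_eq_zero.1 uv).resolve_left (mul_ne_zero hx hy))
    subst e
    exact ⟨mul_right_cancel₀ hx r01, mul_right_cancel₀ hx r02, mul_right_cancel₀ hx r03,
      mul_right_cancel₀ hx r12, mul_right_cancel₀ hx r13, mul_right_cancel₀ hx r23⟩
  obtain ⟨⟨l, hl, hρ⟩, -⟩ := hin
  have z : ∀ a c, (∀ x y, ρ x a c = ρ y a c) → dOne l x a c = 0 := fun a c k =>
    zero_of_const (nul_dOne hl a c) (fun x y => by
      have := k x y
      simp only [hρ, Pi.add_apply] at this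
      exact add_left_cancel this) x
  have z01 := z 0 1 fun x y => (key x y).1
  have z02 := z 0 2 fun x y => (key x y).2.1
  have z03 := z 0 3 fun x y => (key x y).2.2.1
  have z12 := z 1 2 fun x y => (key x y).2.2.2.1
  have z13 := z 1 3 fun x y => (key x y).2.2.2.2.1
  have z23 := z 2 3 fun x y => (key x y).2.2.2.2.2
  have sw : ∀ a c, dOne l x a c = 0 → dOne l x c a = 0 := fun a c k => by
    unfold dOne at *; linarith
  have dg : ∀ a, dOne l x a a = 0 := fun a => sub_self _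
  rw [hρ, add_eq_left]
  ext a c
  fin_cases a <;> fin_cases c
  exacts [dg 0, z01, z02, z03, sw _ _ z01, dg 1, z12, z13, sw _ _ z02, sw _ _ z12, dg 2, z23,
    sw _ _ z03, sw _ _ z13, sw _ _ z23, dg 3]

theorem crit_of_eq (hp : 0 < pf A) : IsCritical b fun _ => A := by
  intro l hl
  have d := hasDerivAt_energy (b := b) (ρ := fun _ => A) (fun a c => SP.const _) (sp_dOne hl)
    fun _ => hp
  have n := nul_dOne hl
  have N1 : Nul b fun x => dsd A (dOne l x) :=
    ((((n 0 1).add (n 2 3)).cmul _).add (((n 0 2).sub (n 1 3)).cmul _)).add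
      (((n 0 3).add (n 1 2)).cmul _)
  have N2 : Nul b fun x => dpf A (dOne l x) :=
    ((((((n 2 3).cmul _).add ((n 0 1).cmul _)).sub ((n 1 3).cmul _)).sub ((n 0 2).cmul _)).add
      ((n 1 2).cmul _)).add ((n 0 3).cmul _)
  have N := (((N1.cmul (pf A)).sub (N2.cmul (sdSq A))).cmul (1 / pf A ^ 2)).2
  convert d using 1
  rw [← N]
  congr 1
  ext x
  ring

theorem main (hin : InClass b A ρ) : IsCritical b ρ ↔ ∀ x, ρ x = A := by
  refine ⟨fun hc => eq_of_crit hin hc, fun h => ?_⟩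
  obtain rfl : ρ = fun _ => A := funext h
  exact crit_of_eq (hin.2 0)

end Pool.Agent.Don
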