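import Pool.Agent.Lib.MP_2710d6_gt.Core

open MeasureTheory Set Metric
open scoped ContDiff

namespace Pool.Agent.Don

variable {b : Module.Basis (Fin 4) ℝ Pt}

theorem hasDerivAt_quot {N0 N1 N2 U0 U1 U2 : Pt → ℝ} (n0 : SP b N0) (n1 : SP b N1) (n2 : SP b N2)
    (u0 : SP b U0) (u1 : SP b U1) (u2 : SP b U2) (hp : ∀ x, 0 < U0 x) :
    HasDerivAt (fun t : ℝ => ∫ x in ZSpan.fundamentalDomain b,
      (N0 x + t * N1 x + t ^ 2 * N2 x) / (U0 x + t * U1 x + t ^ 2 * U2 x))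
      (∫ x in ZSpan.fundamentalDomain b, (N1 x * U0 x - N0 x * U1 x) / U0 x ^ 2) 0 := by
  obtain ⟨C0, p0, hC0⟩ := ((SP.const 1).div u0 fun x => (hp x).ne').bdd
  obtain ⟨C1, p1, hC1⟩ := u1.bdd
  obtain ⟨C2, p2, hC2⟩ := u2.bdd
  set ε := min 1 (1 / (2 * C0 * (C1 + C2))) with hε
  have e0 : 0 < ε := lt_min one_pos (by positivity)
  have hU : ∀ x t, |t| ≤ ε → U0 x + t * U1 x + t ^ 2 * U2 x ≠ 0 := by
    intro x t ht
    have t1 : |t| ≤ 1 := ht.trans (min_le_left _ _)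
    have t2 : |t| * (2 * C0 * (C1 + C2)) ≤ 1 :=
      (le_div_iff₀ (by positivity)).1 (ht.trans (min_le_right _ _))
    have a0 : 1 ≤ C0 * U0 x := (div_le_iff₀ (hp x)).1 ((le_abs_self _).trans (hC0 x))
    have a1 : |t * U1 x| ≤ |t| * C1 := by
      rw [abs_mul]; exact mul_le_mul_of_nonneg_left (hC1 x) (abs_nonneg _)
    have a2 : |t ^ 2 * U2 x| ≤ |t| * C2 := by
      rw [abs_mul, abs_pow]
      refine mul_le_mul ?_ (hC2 x) (abs_nonneg _) (abs_nonneg _)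
      nlinarith [abs_nonneg t]
    have a3 : |t| * (C1 + C2) < U0 x := by
      refine lt_of_mul_lt_mul_left ?_ p0.le
      nlinarith
    have := neg_abs_le (t * U1 x)
    have := neg_abs_le (t ^ 2 * U2 x)
    exact ne_of_gt (by nlinarith)
  have c0 := n0.cont
  have c1 := n1.cont
  have c2 := n2.cont
  have d0 := u0.cont
  have d1 := u1.cont
  have d2 := u2.cont
  have := hasDerivAt_int b
    (F := fun t x => (N0 x + t * N1 x + t ^ 2 * N2 x) / (U0 x + t * U1 x + t ^ 2 * U2 x))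
    (F' := fun t x => ((N1 x + 2 * t * N2 x) * (U0 x + t * U1 x + t ^ 2 * U2 x) -
      (N0 x + t * N1 x + t ^ 2 * N2 x) * (U1 x + 2 * t * U2 x)) /
        (U0 x + t * U1 x + t ^ 2 * U2 x) ^ 2) e0
    (fun t ht => Continuous.div (by fun_prop) (by fun_prop) fun x => hU x t ht)
    (ContinuousOn.div (by fun_prop) (by fun_prop) fun p hp' =>
      pow_ne_zero 2 (hU _ _ (by simpa using hp'.1))) fun x t ht => by
      have h : ∀ a0 a1 a2 : ℝ, HasDerivAt (fun t : ℝ => a0 + t * a1 + t ^ 2 * a2)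
          (a1 + 2 * t * a2) t := fun a0 a1 a2 => by
        simpa using (((hasDerivAt_id t).mul_const a1).const_add a0).fun_add
          ((hasDerivAt_pow 2 t).mul_const a2)
      exact (h _ _ _).fun_div (h _ _ _) (hU x t ht)
  simpa using this

/-- Derivative of the self-dual norm and of the Pfaffian. -/
def dsd (A Z : Fin 4 → Fin 4 → ℝ) : ℝ := (A 0 1 + A 2 3) * (Z 0 1 + Z 2 3) +
  (A 0 2 - A 1 3) * (Z 0 2 - Z 1 3) + (A 0 3 + A 1 2) * (Z 0 3 + Z 1 2)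

def dpf (A Z : Fin 4 → Fin 4 → ℝ) : ℝ := A 0 1 * Z 2 3 + A 2 3 * Z 0 1 - A 0 2 * Z 1 3 -
  A 1 3 * Z 0 2 + A 0 3 * Z 1 2 + A 1 2 * Z 0 3

variable {ρ ζ : Pt → Fin 4 → Fin 4 → ℝ}

theorem sp_pf (h : ∀ a c, SP b fun x => ρ x a c) : SP b fun x => pf (ρ x) :=
  (((h 0 1).mul (h 2 3)).sub ((h 0 2).mul (h 1 3))).add ((h 0 3).mul (h 1 2))

theorem sp_dsd (h : ∀ a c, SP b fun x => ρ x a c) (k : ∀ a c, SP b fun x => ζ x a c) :
    SP b fun x => dsd (ρ x) (ζ x) :=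
  ((((h 0 1).add (h 2 3)).mul ((k 0 1).add (k 2 3))).add
    (((h 0 2).sub (h 1 3)).mul ((k 0 2).sub (k 1 3)))).add
    (((h 0 3).add (h 1 2)).mul ((k 0 3).add (k 1 2)))

theorem sp_sd (h : ∀ a c, SP b fun x => ρ x a c) : SP b fun x => sdSq (ρ x) := by
  convert (sp_dsd h h).cmul (1 / 2) using 2
  simp only [sdSq, dsd]; ring

theorem sp_dpf (h : ∀ a c, SP b fun x => ρ x a c) (k : ∀ a c, SP b fun x => ζ x a c) :
    SP b fun x => dpf (ρ x) (ζ x) :=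
  ((((((h 0 1).mul (k 2 3)).add ((h 2 3).mul (k 0 1))).sub ((h 0 2).mul (k 1 3))).sub
    ((h 1 3).mul (k 0 2))).add ((h 0 3).mul (k 1 2))).add ((h 1 2).mul (k 0 3))

theorem sp_dOne {l : Fin 4 → Pt → ℝ} (h : ∀ c, SP b (l c)) (a c : Fin 4) :
    SP b fun x => dOne l x a c := ((h c).pd a).sub ((h a).pd c)

theorem nul_dOne {l : Fin 4 → Pt → ℝ} (h : ∀ c, SP b (l c)) (a c : Fin 4) :
    Nul b fun x => dOne l x a c :=
  Nul.sub ⟨(h c).pd a, int_pd (h c) a⟩ ⟨(h a).pd c, int_pd (h a) c⟩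

/-- The first variation of the energy. -/
theorem hasDerivAt_energy (h : ∀ a c, SP b fun x => ρ x a c) (k : ∀ a c, SP b fun x => ζ x a c)
    (hp : ∀ x, 0 < pf (ρ x)) :
    HasDerivAt (fun t : ℝ => energy b fun x => ρ x + t • ζ x)
      (∫ x in ZSpan.fundamentalDomain b,
        (dsd (ρ x) (ζ x) * pf (ρ x) - sdSq (ρ x) * dpf (ρ x) (ζ x)) / pf (ρ x) ^ 2) 0 := by
  convert hasDerivAt_quot (sp_sd h) (sp_dsd h k) (sp_sd k) (sp_pf h) (sp_dpf h k) (sp_pf k) hp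
    using 2 with t
  unfold energy
  congr 1
  ext x
  have e1 : sdSq (ρ x + t • ζ x) - asdSq (ρ x + t • ζ x) =
      2 * (pf (ρ x) + t * dpf (ρ x) (ζ x) + t ^ 2 * pf (ζ x)) := by
    simp only [sdSq, asdSq, pf, dpf, Pi.add_apply, Pi.smul_apply, smul_eq_mul]; ring
  have e2 : sdSq (ρ x + t • ζ x) = sdSq (ρ x) + t * dsd (ρ x) (ζ x) + t ^ 2 * sdSq (ζ x) := by
    simp only [sdSq, dsd, Pi.add_apply, Pi.smul_apply, smul_eq_mul]; ring
  rw [e1, e2, mul_div_mul_left _ _ two_ne_zero]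

/-- A weakly closed two-form is closed. -/
theorem weak_div {S01 S02 S03 S12 S13 S23 : Pt → ℝ} (a01 : SP b S01) (a02 : SP b S02)
    (a03 : SP b S03) (a12 : SP b S12) (a13 : SP b S13) (a23 : SP b S23)
    (H : ∀ l : Fin 4 → Pt → ℝ, (∀ c, SP b (l c)) → ∫ x in ZSpan.fundamentalDomain b,
      (S01 x * dOne l x 0 1 + S02 x * dOne l x 0 2 + S03 x * dOne l x 0 3 + S12 x * dOne l x 1 2 +
        S13 x * dOne l x 1 3 + S23 x * dOne l x 2 3) = 0) (x : Pt) :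
    pd 1 S01 x + pd 2 S02 x + pd 3 S03 x = 0 ∧ pd 0 S01 x - pd 2 S12 x - pd 3 S13 x = 0 ∧
      pd 0 S02 x + pd 1 S12 x - pd 3 S23 x = 0 ∧ pd 0 S03 x + pd 1 S13 x + pd 2 S23 x = 0 := by
  have w0 := (((a01.pd 1).add (a02.pd 2)).add (a03.pd 3)).neg
  have w1 := ((a01.pd 0).sub (a12.pd 2)).sub (a13.pd 3)
  have w2 := ((a02.pd 0).add (a12.pd 1)).sub (a23.pd 3)
  have w3 := ((a03.pd 0).add (a13.pd 1)).add (a23.pd 2)
  set W0 := fun x => -(pd 1 S01 x + pd 2 S02 x + pd 3 S03 x) with e0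
  set W1 := fun x => pd 0 S01 x - pd 2 S12 x - pd 3 S13 x with e1
  set W2 := fun x => pd 0 S02 x + pd 1 S12 x - pd 3 S23 x with e2
  set W3 := fun x => pd 0 S03 x + pd 1 S13 x + pd 2 S23 x with e3
  have hl : ∀ c, SP b (![W0, W1, W2, W3] c) := fun c => by
    fin_cases c
    exacts [w0, w1, w2, w3]
  have N1 : Nul b _ := ⟨(((((a01.mul (sp_dOne hl 0 1)).add (a02.mul (sp_dOne hl 0 2))).add
    (a03.mul (sp_dOne hl 0 3))).add (a12.mul (sp_dOne hl 1 2))).add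
    (a13.mul (sp_dOne hl 1 3))).add (a23.mul (sp_dOne hl 2 3)), H _ hl⟩
  have N2 := (((((((nul_parts a01 w1 0).sub (nul_parts a01 w0 1)).add
    ((nul_parts a02 w2 0).sub (nul_parts a02 w0 2))).add
    ((nul_parts a03 w3 0).sub (nul_parts a03 w0 3))).add
    ((nul_parts a12 w2 1).sub (nul_parts a12 w1 2))).add
    ((nul_parts a13 w3 1).sub (nul_parts a13 w1 3))).add
    ((nul_parts a23 w3 2).sub (nul_parts a23 w2 3))).sub N1
  have N3 : Nul b fun x => nsq ![W0 x, W1 x, W2 x, W3 x] := by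
    convert N2 using 2 with y
    simp only [nsq, dOne, Matrix.cons_val_zero, Matrix.cons_val_one, Matrix.cons_val]
    have f0 : W0 y = -(pd 1 S01 y + pd 2 S02 y + pd 3 S03 y) := rfl
    have f1 : W1 y = pd 0 S01 y - pd 2 S12 y - pd 3 S13 y := rfl
    have f2 : W2 y = pd 0 S02 y + pd 1 S12 y - pd 3 S23 y := rfl
    have f3 : W3 y = pd 0 S03 y + pd 1 S13 y + pd 2 S23 y := rfl
    linear_combination W0 y * f0 + W1 y * f1 + W2 y * f2 + W3 y * f3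
  have Z := nsq_zero (N3.1.eq_zero (fun x => nsq_nonneg _) N3.2 x).le
  exact ⟨neg_eq_zero.1 (Z 0), Z 1, Z 2, Z 3⟩

end Pool.Agent.Don
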